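import Pool.Agent.Q139.Cube.Final

/-!
MP_13da68_co: the number `t n d` of subsets of `[n]^d` that tile `ℤ^d` by translations.

* Q1, positive answer: for every `d ≥ 1` there is `C` with `t n d = O(n^C (3^{1/3})^{n^d})`.
* Q2, negative answer: `C(d) = d - 1` is not possible for all `d`; it fails for `d = 3`.

`Q139.Cube.box n d` is the cube `[n]^d`, `Q139.Cube.Tiles S` says that `S` tiles `ℤ^d` by
translations, `Q139.Cube.t n d` is the number of subsets of the cube that do.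
-/

namespace Pool.Agent.Results.MP_13da68_co.BothQuestions

open Asymptotics Filter Q139.Cube

theorem result :
    (∀ d : ℕ, 1 ≤ d → ∃ C : ℕ, (fun n : ℕ => (t n d : ℝ)) =O[atTop]
      fun n : ℕ => (n : ℝ) ^ C * ((3 : ℝ) ^ (1 / 3 : ℝ)) ^ (n ^ d)) ∧
    ¬ ∀ d : ℕ, 1 ≤ d → (fun n : ℕ => (t n d : ℝ)) =O[atTop]
      fun n : ℕ => (n : ℝ) ^ (d - 1) * ((3 : ℝ) ^ (1 / 3 : ℝ)) ^ (n ^ d) :=
  ⟨fun d _ => q1 d, fun h => q2 (h 3 (by norm_num))⟩

end Pool.Agent.Results.MP_13da68_co.BothQuestions
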